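import Mathlib
import Pool.Agent.Lib.AA2e78.Defs
import Pool.Agent.Lib.AA2e78.Hess

/-!
For every `n ≥ 5` there is an irreducible polynomial `p` in `n` complex variables whose zero set
is contractible and has exactly one singular point, an ordinary double point, but such that no
polynomial automorphism of `ℂ^n` carries `p` to a quasihomogeneous polynomial.

The polynomial is
`p = w (w - 1) t + (w - 1) (g - 1) - w (x^2 - y^2 + z^2 + u_1^2 + ... + u_k^2)`, where
`g = 2 x - 3 y + z (x^2 - 3 y^2) - z^2 y^3`, that is `z g = (1 + x z)^2 - (1 + y z)^3`.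
-/

namespace Pool.Agent.Results.MP_aa2e78_ag.NodalContractible

open Pool.Agent.Lib.AA2e78

theorem result (n : ℕ) (hn : 5 ≤ n) :
    ∃ p : MvPolynomial (Fin n) ℂ,
      Irreducible p ∧
      ContractibleSpace (Hypersurface p) ∧
      (∃ a : Fin n → ℂ, IsIsolatedSingularPoint p a ∧ (hessian p a).det ≠ 0 ∧
        ∀ b : Fin n → ℂ, IsSingularPoint p b → b = a) ∧
      ∀ φ : MvPolynomial (Fin n) ℂ ≃ₐ[ℂ] MvPolynomial (Fin n) ℂ,
        ¬ IsQuasihomogeneous (φ p) := by
  obtain ⟨k, rfl⟩ : ∃ k, n = k + 5 := ⟨n - 5, by omega⟩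
  refine ⟨Pk k, irreducible_Pk, contractible_Pk, ⟨a0 k, ⟨sing_a0, Set.univ, Filter.univ_mem,
    fun b _ hb => sing_unique b hb⟩, hess_Pk, sing_unique⟩, fun φ => ?_⟩
  exact not_quasi _ (c0 k) (a0 k) crit_c0 (by rw [eval_c0]; exact one_ne_zero) eval_a0 φ

end Pool.Agent.Results.MP_aa2e78_ag.NodalContractible
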